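import Pool.Agent.Y405.OG.Two

/-!
# Uncountably chromatic graphs without `K(ℵ₀,ℵ₀)` mapping to a given graph (MP_037fd6_co)

In ZFC the exclusion of `K(ℵ₀,ℵ₀)` and of short odd cycles is always possible *inside a given
graph*: let `H` be a graph with at most `ℵ₁` vertices (or with at most `2^ℵ₀` vertices and an
orientation in which every vertex has only countably many in-neighbours) whose chromatic number is
uncountable. Then for every `k` there is a graph `G` of chromatic number exactly `ℵ₁` with a
homomorphism to `H`, without `K(ℵ₀,ℵ₀)` and without the odd cycles `C₃, …, C_{2k+1}`. So a property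
of the finite subgraphs which is inherited under homomorphisms `G → H` and which holds for some
uncountably chromatic graph with `ℵ₁` vertices is compatible with the exclusion of `K(ℵ₀,ℵ₀)`.
For the complete graph with `ℵ₁` vertices this is the positive answer to Q1 and Q2.

Proof. `D` is the product of `H`, oriented as above, with the digraph of the interleaved increasing
tuples of countable ordinals of the starting file. A colouring of `D` with countably many colours
gives, for every vertex `v` of `H`, a colour `g v` which is good for the colouring of the tuples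
over `v` (it is reached however the tuple is chosen step by step beyond given bounds). Two adjacent
vertices `u, v` have the same good colour, and the interleaved choice of a tuple over `u` and of a
tuple over `v` gives an arc of `D` with ends of the same colour. The blow-up theorem of the
starting file is applied to `D`; it needs the countable in-neighbourhoods, at most `2^ℵ₀` vertices
and that no arc joins the ends of a directed path with three arcs.
-/

namespace Pool.Agent.Results.MP_037fd6_co.HomomorphicPreimages

open Cardinal Set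
open Pool.Agent.Results.MP_037fd6_co.OddGirthZFC
open Pool.Agent.Y405.OG

lemma no_nat_coloring {V : Type} {H : SimpleGraph V} (h : ℵ₀ < cardChromatic H) :
    ¬ Nonempty (H.Coloring ℕ) := by
  intro hc
  have h1 : cardChromatic H ≤ ℵ₀ := csInf_le' ⟨ℕ, Cardinal.mk_nat, hc⟩
  exact absurd h (not_lt.2 h1)

lemma complete_chromatic : cardChromatic (⊤ : SimpleGraph W) = ℵ₁ := by
  have hid : Nonempty ((⊤ : SimpleGraph W).Coloring W) :=
    ⟨SimpleGraph.Coloring.mk id (fun {u v} h => h)⟩
  apply le_antisymm
  · exact csInf_le' ⟨W, mk_W, hid⟩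
  · refine le_csInf ⟨#W, W, rfl, hid⟩ ?_
    rintro κ ⟨C, rfl, ⟨col⟩⟩
    rw [← mk_W]
    refine Cardinal.mk_le_of_injective (f := col) ?_
    intro u v huv
    by_contra hne
    exact col.valid (v := u) (w := v) hne huv

/-- **Homomorphic preimages without `K(ℵ₀,ℵ₀)` and short odd cycles.** (1) `H` has at most `2^ℵ₀`
vertices and an orientation `o` with countable in-neighbourhoods; (2) `H` has at most `ℵ₁`
vertices; (3) the question. -/
theorem result :
    (∀ (V : Type) (H : SimpleGraph V) (o : V → V → Prop), #V ≤ 𝔠 →
      (∀ u v, H.Adj u v → o u v ∨ o v u) → (∀ v, {u | H.Adj u v ∧ o u v}.Countable) →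
      ℵ₀ < cardChromatic H → ∀ k : ℕ, ∃ (U : Type) (G : SimpleGraph U),
        cardChromatic G = ℵ₁ ∧ Nonempty (G →g H) ∧
        ¬ (completeBipartiteGraph ℕ ℕ).IsContained G ∧
        ∀ r : ℕ, 1 ≤ r → r ≤ k → ¬ (SimpleGraph.cycleGraph (2 * r + 1)).IsContained G) ∧
    (∀ (V : Type) (H : SimpleGraph V), #V ≤ ℵ₁ → ℵ₀ < cardChromatic H →
      ∀ k : ℕ, ∃ (U : Type) (G : SimpleGraph U),
        cardChromatic G = ℵ₁ ∧ Nonempty (G →g H) ∧
        ¬ (completeBipartiteGraph ℕ ℕ).IsContained G ∧
        ∀ r : ℕ, 1 ≤ r → r ≤ k → ¬ (SimpleGraph.cycleGraph (2 * r + 1)).IsContained G) ∧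
    (∀ k : ℕ, ∃ (U : Type) (G : SimpleGraph U),
        cardChromatic G = ℵ₁ ∧
        ¬ (completeBipartiteGraph ℕ ℕ).IsContained G ∧
        ∀ r : ℕ, 1 ≤ r → r ≤ k → ¬ (SimpleGraph.cycleGraph (2 * r + 1)).IsContained G) := by
  have h2 : ∀ (V : Type) (H : SimpleGraph V), #V ≤ ℵ₁ → ℵ₀ < cardChromatic H →
      ∀ k : ℕ, ∃ (U : Type) (G : SimpleGraph U),
        cardChromatic G = ℵ₁ ∧ Nonempty (G →g H) ∧
        ¬ (completeBipartiteGraph ℕ ℕ).IsContained G ∧
        ∀ r : ℕ, 1 ≤ r → r ≤ k →
          ¬ (SimpleGraph.cycleGraph (2 * r + 1)).IsContained G := by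
    intro V H hV hH k
    obtain ⟨o, ho, hc⟩ := exists_orientation hV
    exact main H (hV.trans Cardinal.aleph_one_le_continuum) o (fun u v h => ho u v h.ne)
      (fun v => (hc v).mono (fun u hu => hu.2)) (no_nat_coloring hH) k
  refine ⟨?_, h2, ?_⟩
  · intro V H o hV ho hc hH k
    exact main H hV o ho hc (no_nat_coloring hH) k
  · intro k
    obtain ⟨U, G, h3, -, h4, h5⟩ := h2 W ⊤ mk_W.le
      (by rw [complete_chromatic]; exact Cardinal.aleph0_lt_aleph_one) k
    exact ⟨U, G, h3, h4, h5⟩

end Pool.Agent.Results.MP_037fd6_co.HomomorphicPreimages
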